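import Pool.Agent.Work.MP_218513_lc.CertGran

/-!
Kill number of Boolean functions of bounded granularity: certificates by equations of degree at most
three over the field with two elements can be replaced by affine subspaces.
-/

set_option autoImplicit false

namespace Pool.Agent.Results.MP_79d924_lc.CubicCertificates

open Pool.Agent.XLR

theorem result :
    (∀ (n k m : ℕ) (f : (Fin n → ZMod 2) → Bool) (x₀ : Fin n → ZMod 2), Gran k f → CubicCertAt f x₀ m →
      ∃ A : Fin (11 * m * (2 * m + 4 * k + 5)) → Fin n → ZMod 2,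
        ∀ y : Fin n → ZMod 2, (∀ j, ∑ i, A j i * y i = ∑ i, A j i * x₀ i) → f y = f x₀) ∧
    ((∃ C c : ℕ, ∀ (n k : ℕ) (f : (Fin n → ZMod 2) → Bool), Gran k f →
      ∃ (d : ℕ) (A : Fin d → Fin n → ZMod 2) (b : Fin d → ZMod 2),
        d ≤ C * (k + 1) ^ c ∧
        (∃ x : Fin n → ZMod 2, ∀ j, ∑ i, A j i * x i = b j) ∧
        ∀ x y : Fin n → ZMod 2,
          (∀ j, ∑ i, A j i * x i = b j) →
          (∀ j, ∑ i, A j i * y i = b j) → f x = f y) ↔
    (∃ C c : ℕ, ∀ (n k : ℕ) (f : (Fin n → ZMod 2) → Bool), Gran k f →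
      ∃ (m : ℕ) (x₀ : Fin n → ZMod 2), m ≤ C * (k + 1) ^ c ∧ CubicCertAt f x₀ m)) :=
  ⟨fun _ _ _ f x₀ hf hc => gran_main f hf x₀ hc, gran_iff⟩

end Pool.Agent.Results.MP_79d924_lc.CubicCertificates
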