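import Pool.Agent.Work.MP_79d924_lc.FS.Main

/-!
# MP_79d924_lc: Boolean functions of small density with flat spectrum

A Boolean function on `F_2^n` whose Fourier coefficient at `0` is `m / 2^k` and whose other Fourier
coefficients are `0` or `± 2^(-k)` is, if `2^24 m^6 ≤ 2^k`, the indicator function of a disjoint union
of `m` affine subspaces of codimension `k`; in particular it is constant on one of them (`K(f) ≤ k`).
-/

set_option autoImplicit false

namespace Pool.Agent.Results.MP_79d924_lc.FlatSpectrum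

/-- The Fourier coefficient `2^(-n) ∑_x f(x) (-1)^(a.x)` of `f` at `a`. -/
noncomputable def fc {n : ℕ} (f : (Fin n → ZMod 2) → Bool) (a : Fin n → ZMod 2) : ℝ :=
  1 / 2 ^ n * ∑ x, (if f x then (1 : ℝ) else 0) * (-1 : ℝ) ^ ((∑ i, a i * x i).val)

/-- `x` satisfies the `k` linear equations `A_j . x = b_j`. -/
def OnFlat {n k : ℕ} (A : Fin k → Fin n → ZMod 2) (b : Fin k → ZMod 2) (x : Fin n → ZMod 2) :
    Prop := ∀ j, ∑ l, A j l * x l = b j

/-- Let `2^24 m^6 ≤ 2^k` and let `f` be a Boolean function on `F_2^n` with `fc f 0 = m / 2^k` and all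
other Fourier coefficients in `{0, 2^(-k), -2^(-k)}`.  Then there are `m` pairwise disjoint affine
subspaces, each given by `k` linearly independent equations, whose union is `f^(-1)(1)`; and `f` is
constant on a nonempty affine subspace given by `k` equations. -/
theorem result (n k m : ℕ) (hk : 2 ^ 24 * m ^ 6 ≤ 2 ^ k) (f : (Fin n → ZMod 2) → Bool)
    (h0 : fc f 0 = m / 2 ^ k)
    (h1 : ∀ a, a ≠ 0 → fc f a = 0 ∨ fc f a = 1 / 2 ^ k ∨ fc f a = -(1 / 2 ^ k)) :
    (∃ (A : Fin m → Fin k → Fin n → ZMod 2) (b : Fin m → Fin k → ZMod 2),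
      (∀ i, LinearIndependent (ZMod 2) (A i)) ∧
      (∀ x, f x = true ↔ ∃ i, OnFlat (A i) (b i) x) ∧
      ∀ i i', i ≠ i' → ∀ x, ¬ (OnFlat (A i) (b i) x ∧ OnFlat (A i') (b i') x)) ∧
    ∃ (A : Fin k → Fin n → ZMod 2) (b : Fin k → ZMod 2),
      (∃ x, OnFlat A b x) ∧ ∀ x y, OnFlat A b x → OnFlat A b y → f x = f y := by
  have key := Pool.Agent.Work.MP_79d924_lc.FS.flat_spectrum hk f h0 h1
  refine ⟨key, ?_⟩
  obtain ⟨A, b, hA, hf, -⟩ := key
  rcases Nat.eq_zero_or_pos m with hm | hm
  · subst hm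
    have hfalse : ∀ x, f x = false := by
      intro x
      by_contra h
      have h2 : f x = true := by simpa using h
      obtain ⟨i, _⟩ := (hf x).1 h2
      exact i.elim0
    refine ⟨fun _ _ => 0, fun _ => 0, ⟨0, fun j => by simp⟩, fun x y _ _ => ?_⟩
    rw [hfalse x, hfalse y]
  · refine ⟨A ⟨0, hm⟩, b ⟨0, hm⟩, ?_, fun x y hx hy => ?_⟩
    · have hli := hA ⟨0, hm⟩
      have hrank : (Matrix.of (A ⟨0, hm⟩)).rank = k := by
        have h3 := LinearIndependent.rank_matrix (M := Matrix.of (A ⟨0, hm⟩)) hli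
        rw [h3, Fintype.card_fin]
      have hsurj : Function.Surjective (Matrix.of (A ⟨0, hm⟩)).mulVecLin := by
        rw [← LinearMap.range_eq_top]
        apply Submodule.eq_top_of_finrank_eq
        rw [← Matrix.rank, hrank]
        simp
      obtain ⟨x, hx⟩ := hsurj (b ⟨0, hm⟩)
      refine ⟨x, fun j => ?_⟩
      have := congrFun hx j
      simpa [Matrix.mulVec, dotProduct] using this
    · have e1 : f x = true := (hf x).2 ⟨_, hx⟩
      have e2 : f y = true := (hf y).2 ⟨_, hy⟩
      rw [e1, e2]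

end Pool.Agent.Results.MP_79d924_lc.FlatSpectrum
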