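import Pool.Agent.Work.MP_79d924_lc.Bound

/-!
# MP_79d924_lc: kill number of bounded-granularity functions of small `F₂`-degree

Every `k`-granular Boolean function of `F₂`-degree at most `d` is computed by a parity decision
tree of depth `1 + 8 ^ d * k * (d + log₂ (k + 1))`; in particular its kill number (and its parity
certificate complexity at every point) is at most this number.  Hence Q1 holds, with constants
depending only on `D`, for all functions whose `F₂`-degree is at most `D * log₂ (k + 1)`.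
-/

set_option autoImplicit false

namespace Pool.Agent.Results.MP_79d924_lc.LowDegree

/-- `f` is `k`-granular: all Fourier coefficients are integer multiples of `2 ^ (-k)`. -/
def Granular {n : ℕ} (k : ℕ) (f : (Fin n → ZMod 2) → Bool) : Prop :=
  ∀ a : Fin n → ZMod 2, ∃ m : ℤ,
    (2 : ℝ) ^ k * (∑ x : Fin n → ZMod 2,
      (if f x then (1 : ℝ) else 0) * (-1 : ℝ) ^ ((∑ i, a i * x i).val)) = (m : ℝ) * (2 : ℝ) ^ n

/-- `f` has `F₂`-degree at most `d`. -/
def DegLE {n : ℕ} (d : ℕ) (f : (Fin n → ZMod 2) → Bool) : Prop :=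
  ∃ P : MvPolynomial (Fin n) (ZMod 2), P.totalDegree ≤ d ∧
    ∀ x, MvPolynomial.eval x P = if f x then 1 else 0

/-- `f` restricted to `S` is computed by a parity decision tree of depth at most `t`. -/
def IsTree {n : ℕ} (f : (Fin n → ZMod 2) → Bool) : ℕ → Set (Fin n → ZMod 2) → Prop
  | 0, S => ∀ x ∈ S, ∀ y ∈ S, f x = f y
  | (t + 1), S => ∃ a : Fin n → ZMod 2,
      IsTree f t (S ∩ {x | ∑ i, a i * x i = 0}) ∧ IsTree f t (S ∩ {x | ∑ i, a i * x i = 1})

open Pool.Agent.Work.MP_79d924_lc Module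

theorem lin_eq {n : ℕ} (l : (Fin n → ZMod 2) →ₗ[ZMod 2] ZMod 2) (x : Fin n → ZMod 2) :
    l x = ∑ i, l (Pi.single i 1) * x i := by
  classical
  have h := LinearMap.pi_apply_eq_sum_univ l x
  rw [h]
  refine Finset.sum_congr rfl fun i _ => ?_
  rw [smul_eq_mul, mul_comm]
  congr 2
  ext j
  simp [Pi.single_apply, eq_comm]

theorem isTree_of_PT {n : ℕ} (f : (Fin n → ZMod 2) → Bool) (g : (Fin n → ZMod 2) → ZMod 2)
    (hfg : ∀ x, g x = if f x then 1 else 0) (t : ℕ) :
    ∀ S, PT g t S → IsTree f t S := by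
  induction t with
  | zero =>
    intro S h x hx y hy
    have := h x hx y hy
    rw [hfg, hfg] at this
    revert this
    cases f x <;> cases f y <;> simp
  | succ t ih =>
    rintro S ⟨l, h0, h1⟩
    have key : ∀ b : ZMod 2, {x | l x = b} = {x | ∑ i, l (Pi.single i 1) * x i = b} := by
      intro b
      ext x
      show l x = b ↔ ∑ i, l (Pi.single i 1) * x i = b
      rw [← lin_eq l x]
    refine ⟨fun i => l (Pi.single i 1), ?_, ?_⟩
    · rw [← key]; exact ih _ h0
    · rw [← key]; exact ih _ h1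

theorem cert_of_PT {n : ℕ} (f : (Fin n → ZMod 2) → Bool) (g : (Fin n → ZMod 2) → ZMod 2)
    (hfg : ∀ x, g x = if f x then 1 else 0) (t : ℕ) (h : PT g t Set.univ)
    (x₀ : Fin n → ZMod 2) : ∃ A : Fin t → Fin n → ZMod 2,
      ∀ y : Fin n → ZMod 2, (∀ j, ∑ i, A j i * y i = ∑ i, A j i * x₀ i) → f y = f x₀ := by
  obtain ⟨l, hl⟩ := PT_cert g t Set.univ h x₀ (Set.mem_univ _)
  refine ⟨fun j i => l j (Pi.single i 1), fun y hy => ?_⟩
  have := hl y (Set.mem_univ _) fun j => by rw [lin_eq (l j) y, lin_eq (l j) x₀]; exact hy j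
  rw [hfg, hfg] at this
  revert this
  cases f x₀ <;> cases f y <;> simp

/-- Main theorem. -/
theorem result :
    (∀ (n k d : ℕ) (f : (Fin n → ZMod 2) → Bool), Granular k f → DegLE d f →
      IsTree f (1 + 8 ^ d * (k * (d + Nat.log 2 (k + 1)))) Set.univ ∧
      ∀ x₀ : Fin n → ZMod 2,
        ∃ A : Fin (1 + 8 ^ d * (k * (d + Nat.log 2 (k + 1)))) → Fin n → ZMod 2,
          ∀ y : Fin n → ZMod 2, (∀ j, ∑ i, A j i * y i = ∑ i, A j i * x₀ i) → f y = f x₀) ∧
    (∀ D : ℕ, ∃ C c : ℕ, ∀ (n k d : ℕ) (f : (Fin n → ZMod 2) → Bool),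
      Granular k f → DegLE d f → 2 ^ d ≤ (k + 1) ^ D →
      ∃ (d : ℕ) (A : Fin d → Fin n → ZMod 2) (b : Fin d → ZMod 2),
        d ≤ C * (k + 1) ^ c ∧
        (∃ x : Fin n → ZMod 2, ∀ j, ∑ i, A j i * x i = b j) ∧
        ∀ x y : Fin n → ZMod 2,
          (∀ j, ∑ i, A j i * x i = b j) →
          (∀ j, ∑ i, A j i * y i = b j) → f x = f y) := by
  have main : ∀ (n k d : ℕ) (f : (Fin n → ZMod 2) → Bool), Granular k f → DegLE d f →
      PT (fun x => (if f x then 1 else 0 : ZMod 2))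
        (1 + 8 ^ d * (k * (d + Nat.log 2 (k + 1)))) Set.univ := by
    intro n k d f hk hd
    obtain ⟨P, hP, hPf⟩ := hd
    have h1 : DegLT (d + 1) (fun x => (if f x then 1 else 0 : ZMod 2)) := by
      have := degLT_eval P hP
      simpa only [hPf] using this
    have h2 := SN_of_granular f hk
    exact PT_mono_le _ (cst_le k d) _ (tree_main k d _ _ h1 h2)
  have part1 : ∀ (n k d : ℕ) (f : (Fin n → ZMod 2) → Bool), Granular k f → DegLE d f →
      ∀ x₀ : Fin n → ZMod 2,
        ∃ A : Fin (1 + 8 ^ d * (k * (d + Nat.log 2 (k + 1)))) → Fin n → ZMod 2,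
          ∀ y : Fin n → ZMod 2, (∀ j, ∑ i, A j i * y i = ∑ i, A j i * x₀ i) → f y = f x₀ :=
    fun n k d f hk hd => cert_of_PT f _ (fun _ => rfl) _ (main n k d f hk hd)
  refine ⟨fun n k d f hk hd => ⟨isTree_of_PT f _ (fun _ => rfl) _ _ (main n k d f hk hd),
    part1 n k d f hk hd⟩, ?_⟩
  intro D
  refine ⟨3, 4 * D + 2, fun n k d f hk hd hD => ?_⟩
  obtain ⟨A, hA⟩ := part1 n k d f hk hd 0
  refine ⟨_, A, fun _ => 0, poly_bound D k d hD, ⟨0, fun j => by simp⟩, fun x y hx hy => ?_⟩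
  rw [hA x fun j => by rw [hx j]; simp, hA y fun j => by rw [hy j]; simp]

end Pool.Agent.Results.MP_79d924_lc.LowDegree
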