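import Pool.Agent.Work.MP_79d924_lc.SI.Dir

/-!
# MP_79d924_lc: small influences force a small kill number

Let `f` be `k`-granular.  If `f + l` is constant or balanced on every coset of a subspace `W`, and
constant on a proportion `w > 0` of them, then `K(f) ≤ 2 k ⌈2^k w⌉`.  For `W = {0, v}` and any `l`
with `l·v = 1` the hypothesis always holds and `w` is the influence of the direction `v`.  For every
basis this gives `K(f)^2 ≤ 3 k 2^k I`, where `I` is the total influence (average sensitivity) in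
this basis.
-/

set_option autoImplicit false

namespace Pool.Agent.Results.MP_79d924_lc.SmallInfluence

open Pool.Agent.Work.MP_79d924_lc.SI

/-- Main theorem. -/
theorem result :
    (∀ (n k : ℕ) (f : (Fin n → ZMod 2) → Bool) (W : Submodule (ZMod 2) (Fin n → ZMod 2))
      (l : Fin n → ZMod 2), 1 ≤ k → Granular k f →
      (∀ x, ConstAt f l W x ∨ BalAt f l W x) → (∃ x, ConstAt f l W x) →
      KillLE f (2 * k * ⌈(2 : ℝ) ^ k * (Nat.card {x // ConstAt f l W x} : ℝ) / 2 ^ n⌉₊)) ∧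
    (∀ (n k : ℕ) (f : (Fin n → ZMod 2) → Bool) (v : Fin n → ZMod 2), 1 ≤ k → Granular k f →
      (∃ x, f x ≠ f (x + v)) →
      KillLE f (2 * k * ⌈(2 : ℝ) ^ k * (Nat.card {x // f x ≠ f (x + v)} : ℝ) / 2 ^ n⌉₊)) ∧
    (∀ (n k : ℕ) (f : (Fin n → ZMod 2) → Bool)
      (b : Module.Basis (Fin n) (ZMod 2) (Fin n → ZMod 2)), 1 ≤ k → Granular k f →
      ∃ d : ℕ, KillLE f d ∧ (d : ℝ) ^ 2 ≤ 3 * (k : ℝ) * (2 ^ k *
        ∑ i, (Nat.card {x // f x ≠ f (x + b i)} : ℝ) / 2 ^ n)) := by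
  refine ⟨?_, ?_, ?_⟩
  · intro n k f W l hk hf hW hne
    obtain ⟨m, rfl⟩ : ∃ m, k = m + 1 := ⟨k - 1, by omega⟩
    exact (kill_of_cosets m f W l hf hW hne).2
  · intro n k f v hk hf hv
    obtain ⟨m, rfl⟩ : ∃ m, k = m + 1 := ⟨k - 1, by omega⟩
    exact (kill_dir' m f hf v hv).2
  · intro n k f b hk hf
    obtain ⟨m, rfl⟩ : ∃ m, k = m + 1 := ⟨k - 1, by omega⟩
    exact kill_basis' m f hf b

end Pool.Agent.Results.MP_79d924_lc.SmallInfluence
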